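import Mathlib

namespace Pool.Agent.H.MP_95eb0c_an

open MeasureTheory Filter Topology Set

noncomputable def r (n : ℕ) (z : ℝ × ℝ) : ℝ := (-1) ^ ⌊((n : ℝ) + 1) * (z.1 - z.2)⌋

lemma r_meas (n : ℕ) : Measurable (r n) :=
  (measurable_from_top (f := fun k : ℤ => (-1 : ℝ) ^ k)).comp (Int.measurable_floor.comp (by fun_prop))

lemma r_val (n : ℕ) (z : ℝ × ℝ) : r n z = 1 ∨ r n z = -1 := by
  unfold r
  rcases Int.even_or_odd ⌊((n : ℝ) + 1) * (z.1 - z.2)⌋ with h | h
  · exact Or.inl h.neg_one_zpow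
  · exact Or.inr h.neg_one_zpow

lemma r_abs (n : ℕ) (z : ℝ × ℝ) : |r n z| = 1 := by rcases r_val n z with h | h <;> simp [h]

lemma r_shift (n : ℕ) (z : ℝ × ℝ) : r n (z + (1 / ((n : ℝ) + 1), 0)) = - r n z := by
  unfold r
  have : ((n : ℝ) + 1) * ((z + (1 / ((n : ℝ) + 1), 0)).1 - (z + (1 / ((n : ℝ) + 1), (0 : ℝ))).2) =
      ((n : ℝ) + 1) * (z.1 - z.2) + 1 := by
    simp only [Prod.fst_add, Prod.snd_add]
    field_simp
    ring
  rw [this, Int.floor_add_one, zpow_add_one₀ (by norm_num)]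
  ring

lemma r_int {μ : Measure (ℝ × ℝ)} (n : ℕ) {g : ℝ × ℝ → ℝ} (hg : Integrable g μ) :
    Integrable (fun z => r n z * g z) μ :=
  hg.bdd_mul (c := 1) (r_meas n).aestronglyMeasurable (.of_forall fun z => (r_abs n z).le)

lemma weak0 {g : ℝ × ℝ → ℝ} (hg : Integrable g) :
    Tendsto (fun n => ∫ z, r n z * g z) atTop (𝓝 0) := by
  let a : ℕ → ℝ × ℝ := fun n => (1 / ((n : ℝ) + 1), 0)
  have ha : Tendsto a atTop (𝓝 0) :=
    (tendsto_one_div_add_atTop_nhds_zero_nat (𝕜 := ℝ)).prodMk_nhds tendsto_const_nhds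
  let T : ℝ × ℝ → C(ℝ × ℝ, ℝ × ℝ) := fun b => ⟨fun z => z + b, by fun_prop⟩
  have hT : Continuous T := ContinuousMap.continuous_of_continuous_uncurry _ (by
    show Continuous fun p : (ℝ × ℝ) × (ℝ × ℝ) => p.2 + p.1
    fun_prop)
  have hm : ∀ b, MeasurePreserving (T b) volume volume := fun b => measurePreserving_add_right _ b
  have h1 := (tendsto_const_nhds (x := hg.toL1 g)).compMeasurePreservingLp
    ((hT.tendsto 0).comp ha) (fun n => hm _) (hm 0) (by simp)
  rw [tendsto_iff_norm_sub_tendsto_zero] at h1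
  refine squeeze_zero_norm (fun n => ?_) h1
  have hs : Integrable fun z => g (z + a n) := hg.comp_add_right _
  have e1 : ∫ z, r n z * g z = - ∫ z, r n z * g (z + a n) := by
    rw [← integral_add_right_eq_self _ (a n), ← integral_neg]
    simp only [a, r_shift, neg_mul]
  have e2 : 2 * ∫ z, r n z * g z = ∫ z, r n z * (g z - g (z + a n)) := by
    simp only [mul_sub]
    rw [integral_sub (r_int n hg) (r_int n hs)]
    linarith
  have e3 : ‖∫ z, r n z * (g z - g (z + a n))‖ ≤ ∫ z, ‖g (z + a n) - g z‖ := by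
    refine (norm_integral_le_integral_norm _).trans_eq (integral_congr_ae (.of_forall fun z => ?_))
    simp only [norm_mul, Real.norm_eq_abs, r_abs, one_mul, abs_sub_comm]
  have e4 : ∀ b, (Lp.compMeasurePreserving (T b) (hm b) (hg.toL1 g) : ℝ × ℝ → ℝ) =ᵐ[volume]
      fun z => g (z + b) := fun b =>
    (Lp.coeFn_compMeasurePreserving _ _).trans
      ((hm b).quasiMeasurePreserving.ae_eq_comp hg.coeFn_toL1)
  rw [L1.norm_eq_integral_norm]
  have e5 : ∫ z, ‖g (z + a n) - g z‖ = ∫ z, ‖(Lp.compMeasurePreserving ((T ∘ a) n) (hm _)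
      (hg.toL1 g) - Lp.compMeasurePreserving (T 0) (hm 0) (hg.toL1 g)) z‖ := by
    refine integral_congr_ae ?_
    filter_upwards [e4 (a n), e4 0, Lp.coeFn_sub (Lp.compMeasurePreserving ((T ∘ a) n) (hm _)
      (hg.toL1 g)) (Lp.compMeasurePreserving (T 0) (hm 0) (hg.toL1 g))] with z p q s
    rw [s, Pi.sub_apply, q, add_zero]
    exact congrArg (fun t => ‖t - g z‖) p.symm
  rw [← e5]
  rw [← e2, norm_mul] at e3
  simp only [Real.norm_ofNat] at e3
  linarith [norm_nonneg (∫ z, r n z * g z)]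

lemma weak {s : Set (ℝ × ℝ)} (hs : MeasurableSet s) {g : ℝ × ℝ → ℝ}
    (hg : Integrable g (volume.restrict s)) (c d : ℝ) :
    Tendsto (fun n => ∫ z in s, (c + d * r n z) * g z) atTop (𝓝 (∫ z in s, c * g z)) := by
  have h := weak0 ((integrable_indicator_iff hs).2 hg)
  have e : ∀ n, ∫ z in s, (c + d * r n z) * g z =
      (∫ z in s, c * g z) + d * ∫ z, r n z * s.indicator g z := fun n => by
    simp only [add_mul, mul_assoc, ← indicator_mul_right]
    rw [integral_add (hg.const_mul c) ((r_int n hg).const_mul d), integral_const_mul d,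
      integral_indicator hs]
  simp only [e]
  simpa using tendsto_const_nhds.add (h.const_mul d)

lemma line {φ H : ℝ × ℝ → ℝ} (hφ : ContDiff ℝ ((⊤ : ℕ∞) : WithTop ℕ∞) φ)
    (hc : HasCompactSupport φ) (hH : Measurable H) (hb : ∀ z, |H z| ≤ 1) (v : ℝ × ℝ)
    (hv : ∀ z (t : ℝ), H (z + t • v) = H z) :
    Integrable (fun z => H z * fderiv ℝ φ z v) ∧ ∫ z, H z * fderiv ℝ φ z v = 0 := by
  have i1 : Integrable fun z => fderiv ℝ φ z v :=
    ((hφ.continuous_fderiv (by simp)).clm_apply continuous_const).integrable_of_hasCompactSupport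
      (hc.fderiv_apply ℝ v)
  have i2 : Integrable fun z => H z * fderiv ℝ φ z v :=
    i1.bdd_mul (c := 1) hH.aestronglyMeasurable (.of_forall hb)
  have i3 : Integrable fun z => H z * φ z :=
    (hφ.continuous.integrable_of_hasCompactSupport hc).bdd_mul (c := 1) hH.aestronglyMeasurable
      (.of_forall hb)
  refine ⟨i2, ?_⟩
  have := integral_bilinear_hasLineDerivAt_right_eq_neg_left_of_integrable (μ := volume)
    (f := H) (f' := fun _ => 0) (g := φ) (g' := fun z => fderiv ℝ φ z v) (v := v)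
    (B := ContinuousLinearMap.mul ℝ ℝ) (by simp) i2 i3
    (fun z _ => by
      unfold HasLineDerivAt
      simp only [hv]
      exact hasDerivAt_const _ _)
    (fun z _ => ((hφ.differentiable (by simp)) z).hasFDerivAt.hasLineDerivAt v)
  simpa using this

lemma sol {φ : ℝ × ℝ → ℝ} (hφ : ContDiff ℝ ((⊤ : ℕ∞) : WithTop ℕ∞) φ)
    (hc : HasCompactSupport φ) {s : Set (ℝ × ℝ)} (hs : tsupport φ ⊆ s) (n : ℕ) (a b d : ℝ)
    (F : ℝ × ℝ → ℝ) (hF : ∀ z, F z =
      (a + d * r n z) * fderiv ℝ φ z (0, 1) + (b + d * r n z) * fderiv ℝ φ z (1, 0)) :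
    ∫ z in s, F z = 0 := by
  obtain ⟨p1, p2⟩ := line (H := fun _ => 1) hφ hc measurable_const (by simp) (0, 1) fun _ _ => rfl
  obtain ⟨q1, q2⟩ := line (H := fun _ => 1) hφ hc measurable_const (by simp) (1, 0) fun _ _ => rfl
  obtain ⟨s1, s2⟩ := line hφ hc (r_meas n) (fun z => (r_abs n z).le) (1, 1) fun z t => by simp [r]
  have e : ∀ z, F z = a * (1 * fderiv ℝ φ z (0, 1)) + b * (1 * fderiv ℝ φ z (1, 0)) +
      d * (r n z * fderiv ℝ φ z (1, 1)) := fun z => by
    have : fderiv ℝ φ z (1, 1) = fderiv ℝ φ z (0, 1) + fderiv ℝ φ z (1, 0) := by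
      rw [← map_add]; simp
    rw [hF, this]; ring
  rw [setIntegral_eq_integral_of_forall_compl_eq_zero fun z hz => by
    rw [hF, fderiv_of_notMem_tsupport ℝ fun a => hz (hs a)]; simp]
  simp only [e]
  have i : Integrable fun z => a * (1 * fderiv ℝ φ z (0, 1)) + b * (1 * fderiv ℝ φ z (1, 0)) :=
    (p1.const_mul a).add (q1.const_mul b)
  rw [integral_add i (s1.const_mul d),
    integral_add (p1.const_mul a) (q1.const_mul b), integral_const_mul a, integral_const_mul b,
    integral_const_mul d, p2, q2, s2]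
  simp

end Pool.Agent.H.MP_95eb0c_an
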